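import Pool.Agent.Run7.h342.MD.Stm

/-!
Calculus of directional derivatives on the nondegenerate vectors.
-/

set_option autoImplicit false

namespace Run7.h622.MD

open MvPolynomial Run7.h342.MD

noncomputable section

section dd

variable {k : Type} [Field k] {σ τ : Type} [Fintype σ] [Fintype τ]

theorem dd_add (P Q : MvPolynomial σ k) (c v : σ → k) : dd (P + Q) c v = dd P c v + dd Q c v := by
  unfold dd
  rw [← Finset.sum_add_distrib]
  refine Finset.sum_congr rfl fun q _ => ?_
  rw [map_add, map_add, mul_add]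

theorem dd_C (a : k) (c v : σ → k) : dd (C a : MvPolynomial σ k) c v = 0 := by
  unfold dd
  refine Finset.sum_eq_zero fun q _ => ?_
  rw [pderiv_C, map_zero, mul_zero]

theorem dd_one (c v : σ → k) : dd (1 : MvPolynomial σ k) c v = 0 := by
  rw [← C_1]; exact dd_C 1 c v

theorem dd_mul (P Q : MvPolynomial σ k) (c v : σ → k) :
    dd (P * Q) c v = dd P c v * eval c Q + eval c P * dd Q c v := by
  unfold dd
  rw [Finset.sum_mul, Finset.mul_sum, ← Finset.sum_add_distrib]
  refine Finset.sum_congr rfl fun q _ => ?_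
  rw [pderiv_mul, map_add, map_mul, map_mul]
  ring

theorem dd_add_v (P : MvPolynomial σ k) (c v v' : σ → k) :
    dd P c (v + v') = dd P c v + dd P c v' := by
  unfold dd
  rw [← Finset.sum_add_distrib]
  refine Finset.sum_congr rfl fun q _ => ?_
  rw [Pi.add_apply, add_mul]

theorem dd_smul_v (P : MvPolynomial σ k) (c : σ → k) (a : k) (v : σ → k) :
    dd P c (a • v) = a * dd P c v := by
  unfold dd
  rw [Finset.mul_sum]
  refine Finset.sum_congr rfl fun q _ => ?_
  rw [Pi.smul_apply, smul_eq_mul, mul_assoc]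

theorem dd_X (q : σ) (c v : σ → k) : dd (X q : MvPolynomial σ k) c v = v q := by
  classical
  unfold dd
  rw [Finset.sum_eq_single q]
  · rw [pderiv_X_self, map_one, mul_one]
  · intro q' _ hq
    rw [pderiv_X_of_ne hq.symm, map_zero, mul_zero]
  · intro h
    exact absurd (Finset.mem_univ _) h

theorem dd_sum {ι : Type} (s : Finset ι) (P : ι → MvPolynomial σ k) (c v : σ → k) :
    dd (∑ i ∈ s, P i) c v = ∑ i ∈ s, dd (P i) c v := by
  classical
  induction s using Finset.induction_on with
  | empty =>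
    rw [Finset.sum_empty, Finset.sum_empty, ← C_0]
    exact dd_C 0 c v
  | insert a s ha ih => rw [Finset.sum_insert ha, Finset.sum_insert ha, dd_add, ih]

theorem dd_aeval (L : σ → MvPolynomial τ k) (P : MvPolynomial σ k) (c v : τ → k) :
    dd (aeval L P) c v = dd P (fun s => eval c (L s)) (fun s => dd (L s) c v) := by
  induction P using MvPolynomial.induction_on with
  | C a =>
    rw [aeval_C, dd_C]
    exact dd_C a c v
  | add p q hp hq => rw [map_add, dd_add, dd_add, hp, hq]
  | mul_X p s hp =>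
    rw [map_mul, aeval_X, dd_mul, dd_mul, dd_X, hp, eval_X]
    congr 2
    exact eval₂Hom_bind₁ (RingHom.id k) c L p

end dd

variable (n d : ℕ) (k : Type) [Field k] [IsAlgClosed k] [CharZero k]

variable {n d k} in
/-- cross multiplication of two representations -/
theorem cross (hR : S_RES n d k) {φ : U n d k → k} {P Q P' Q' : MvPolynomial (Ix n d) k}
    (h : RepU φ P Q) (h' : RepU φ P' Q') : P * Q' = P' * Q := by
  obtain ⟨Θ, hΘ⟩ := hR
  have h0 : (P * Q' - P' * Q) * Θ = 0 := by
    apply MvPolynomial.funext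
    intro c
    rw [map_mul, map_zero]
    by_cases hc : eval c Θ = 0
    · rw [hc, mul_zero]
    · have hn := (hΘ.iff c).1 hc
      have h1 := h ⟨c, hn⟩
      have h2 := h' ⟨c, hn⟩
      have h3 := h1.2.symm.trans h2.2
      rw [div_eq_div_iff h1.1 h2.1] at h3
      rw [map_sub, map_mul, map_mul, sub_eq_zero.2 h3, zero_mul]
  rcases mul_eq_zero.1 h0 with h1 | h1
  · exact sub_eq_zero.1 h1
  · exact absurd h1 hΘ.irr.ne_zero

variable {n d k} in
/-- the derivative from any representation -/
theorem rep' (hR : S_RES n d k) {φ : U n d k → k} {P Q : MvPolynomial (Ix n d) k}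
    (h : RepU φ P Q) (c : U n d k) (v : Ix n d → k) :
    dU φ c v = (dd P c.1 v * eval c.1 Q - eval c.1 P * dd Q c.1 v) / eval c.1 Q ^ 2 := by
  classical
  have hreg : RegU φ := ⟨P, Q, h⟩
  unfold dU
  rw [dif_pos hreg]
  have h0 : RepU φ hreg.choose hreg.choose_spec.choose := hreg.choose_spec.choose_spec
  generalize hreg.choose_spec.choose = Q0 at h0 ⊢
  generalize hreg.choose = P0 at h0 ⊢
  have hx := cross hR h h0
  have hd := congrArg (fun p => dd p c.1 v) hx
  simp only [dd_mul] at hd
  obtain ⟨a1, a2⟩ := h c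
  obtain ⟨b1, b2⟩ := h0 c
  have e1 : eval c.1 P = φ c * eval c.1 Q := by rw [a2]; field_simp
  have e2 : eval c.1 P0 = φ c * eval c.1 Q0 := by rw [b2]; field_simp
  rw [e1, e2] at hd ⊢
  rw [div_eq_div_iff (pow_ne_zero 2 b1) (pow_ne_zero 2 a1)]
  have key : (dd P0 c.1 v - φ c * dd Q0 c.1 v) * eval c.1 Q =
      (dd P c.1 v - φ c * dd Q c.1 v) * eval c.1 Q0 := by linear_combination -hd
  linear_combination (eval c.1 Q0 * eval c.1 Q) * key

/-- the coordinates of `act g c` as linear forms in `c` -/
def actL {n d : ℕ} {k : Type} [Field k] (g : GL (Fin n) k) (q : Ix n d) : MvPolynomial (Ix n d) k := by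
  classical
  exact ∑ q', C (act g (Pi.single q' 1) q) * X q'

theorem eval_actL (g : GL (Fin n) k) (c : Ix n d → k) (q : Ix n d) :
    eval c (actL g q) = act g c q := by
  classical
  have h1 : c = ∑ q', c q' • (Pi.single q' 1 : Ix n d → k) := by
    funext q
    rw [Finset.sum_apply]
    simp [Pi.single_apply]
  have h2 : ∀ s : Finset (Ix n d), act g (∑ q' ∈ s, c q' • (Pi.single q' 1 : Ix n d → k)) =
      ∑ q' ∈ s, c q' • act g (Pi.single q' 1 : Ix n d → k) := by
    intro s
    induction s using Finset.induction_on with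
    | empty =>
      rw [Finset.sum_empty, Finset.sum_empty]
      have := act_smul g (0 : k) (0 : Ix n d → k)
      simpa using this
    | insert a s ha ih => rw [Finset.sum_insert ha, Finset.sum_insert ha, act_add, act_smul, ih]
  conv_rhs => rw [h1, h2]
  unfold actL
  rw [map_sum, Finset.sum_apply]
  refine Finset.sum_congr rfl fun q' _ => ?_
  rw [map_mul, eval_C, eval_X, Pi.smul_apply, smul_eq_mul, mul_comm]

theorem dd_actL (g : GL (Fin n) k) (c v : Ix n d → k) (q : Ix n d) :
    dd (actL g q) c v = act g v q := by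
  classical
  rw [← eval_actL]
  unfold actL
  rw [dd_sum, map_sum]
  refine Finset.sum_congr rfl fun q' _ => ?_
  rw [dd_mul, dd_C, dd_X, zero_mul, zero_add, eval_C, map_mul, eval_C, eval_X]

theorem repAct {φ : U n d k → k} {P Q : MvPolynomial (Ix n d) k} (h : RepU φ P Q)
    (g : GL (Fin n) k) :
    RepU (fun c => φ (gact g c)) (aeval (actL g) P) (aeval (actL g) Q) := by
  intro x
  have h1 : ∀ p : MvPolynomial (Ix n d) k, eval x.1 (aeval (actL g) p) = eval (gact g x).1 p := by
    intro p
    have h2 : eval x.1 (aeval (actL g) p) = eval (fun q => eval x.1 (actL g q)) p :=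
      eval₂Hom_bind₁ (RingHom.id k) x.1 (actL g) p
    rw [h2]
    congr 2
    funext q
    exact eval_actL n d k g x.1 q
  rw [h1, h1]
  exact h (gact g x)

theorem t_DU (_hn : 3 ≤ n) (_hd : 2 ≤ d) (hR : S_RES n d k) (_hP : S_REPU n d k) : S_DU n d k := by
  have hrep : ∀ (φ : U n d k → k) P Q, RepU φ P Q → ∀ c v, dU φ c v =
    (dd P c.1 v * eval c.1 Q - eval c.1 P * dd Q c.1 v) / eval c.1 Q ^ 2 :=
    fun φ P Q h c v => rep' hR h c v
  have hadd : ∀ φ ψ : U n d k → k, RegU φ → RegU ψ → ∀ c v,
      dU (φ + ψ) c v = dU φ c v + dU ψ c v := by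
    rintro φ ψ ⟨P, Q, h⟩ ⟨P', Q', h'⟩ c v
    have h2 : RepU (φ + ψ) (P * Q' + P' * Q) (Q * Q') := by
      intro x
      have h1 := (h x).1
      have h2 := (h' x).1
      refine ⟨?_, ?_⟩
      · rw [map_mul]
        exact mul_ne_zero h1 h2
      · rw [map_mul, map_add, map_mul, map_mul, Pi.add_apply, (h x).2, (h' x).2]
        field_simp
    rw [hrep _ _ _ h2, hrep _ _ _ h, hrep _ _ _ h']
    have h3 := (h c).1
    have h4 := (h' c).1
    simp only [dd_add, dd_mul, map_add, map_mul]
    field_simp
    ring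
  have hmul : ∀ φ ψ : U n d k → k, RegU φ → RegU ψ → ∀ c v,
      dU (φ * ψ) c v = φ c * dU ψ c v + ψ c * dU φ c v := by
    rintro φ ψ ⟨P, Q, h⟩ ⟨P', Q', h'⟩ c v
    have h2 : RepU (φ * ψ) (P * P') (Q * Q') := by
      intro x
      have h1 := (h x).1
      have h2 := (h' x).1
      refine ⟨?_, ?_⟩
      · rw [map_mul]
        exact mul_ne_zero h1 h2
      · rw [map_mul, map_mul, Pi.mul_apply, (h x).2, (h' x).2]
        field_simp
    rw [hrep _ _ _ h2, hrep _ _ _ h, hrep _ _ _ h', (h c).2, (h' c).2]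
    have h3 := (h c).1
    have h4 := (h' c).1
    simp only [dd_mul, map_mul]
    field_simp
    ring
  have hconst : ∀ (a : k) c v, dU (fun _ : U n d k => a) c v = 0 := by
    intro a c v
    have h : RepU (fun _ : U n d k => a) (C a) 1 := by
      intro x
      refine ⟨?_, ?_⟩
      · rw [map_one]
        exact one_ne_zero
      · rw [map_one, eval_C, div_one]
    rw [hrep _ _ _ h, dd_C, dd_one]
    simp
  have hregc : ∀ a : k, RegU (fun _ : U n d k => a) := fun a => (OU n d k).algebraMap_mem a
  refine ⟨hrep, hadd, hmul, hconst, ?_, ?_, ?_, ?_, ?_, ?_, ?_, ?_⟩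
  · intro a φ hφ c v
    have h1 : a • φ = (fun _ : U n d k => a) * φ := by
      funext x
      simp
    rw [h1, hmul _ _ (hregc a) hφ, hconst]
    ring
  · intro τ s φ hφ c v
    classical
    induction s using Finset.induction_on with
    | empty =>
      rw [Finset.sum_empty, Finset.sum_empty]
      exact hconst 0 c v
    | insert a s ha ih =>
      rw [Finset.sum_insert ha, Finset.sum_insert ha, hadd _ _ (hφ a), ih]
      exact (OU n d k).sum_mem fun i _ => hφ i
  · rintro φ ⟨P, Q, h⟩ c v v'
    rw [hrep _ _ _ h, hrep _ _ _ h, hrep _ _ _ h, dd_add_v, dd_add_v]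
    ring
  · rintro φ ⟨P, Q, h⟩ c a v
    rw [hrep _ _ _ h, hrep _ _ _ h, dd_smul_v, dd_smul_v]
    ring
  · intro l a c v
    have h : RepU (fun x : U n d k => (∑ q, l q * x.1 q) + a) (∑ q, C (l q) * X q + C a) 1 := by
      intro x
      refine ⟨?_, ?_⟩
      · rw [map_one]
        exact one_ne_zero
      · rw [map_one, map_add, eval_C, div_one, map_sum]
        simp
    rw [hrep _ _ _ h, dd_add, dd_C, dd_one, dd_sum, map_one]
    simp only [dd_mul, dd_C, dd_X, eval_C, zero_mul, zero_add]
    simp
  · rintro φ ⟨P, Q, h⟩ v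
    have hdd : ∀ (p : MvPolynomial (Ix n d) k) (c : Ix n d → k),
        eval c (∑ q, C (v q) * pderiv q p) = dd p c v := by
      intro p c
      unfold dd
      rw [map_sum]
      simp
    refine ⟨(∑ q, C (v q) * pderiv q P) * Q - P * (∑ q, C (v q) * pderiv q Q), Q ^ 2, fun x => ?_⟩
    refine ⟨?_, ?_⟩
    · rw [map_pow]
      exact pow_ne_zero 2 (h x).1
    · show dU φ x v = _
      rw [hrep _ _ _ h, map_sub, map_mul, map_mul, map_pow, hdd, hdd]
  · rintro φ ⟨P, Q, h⟩ g
    exact ⟨_, _, repAct n d k h g⟩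
  · rintro φ ⟨P, Q, h⟩ g c v
    have h1 : ∀ p : MvPolynomial (Ix n d) k, eval c.1 (aeval (actL g) p) = eval (gact g c).1 p := by
      intro p
      have h2 : eval c.1 (aeval (actL g) p) = eval (fun q => eval c.1 (actL g q)) p :=
        eval₂Hom_bind₁ (RingHom.id k) c.1 (actL g) p
      rw [h2]
      congr 2
      funext q
      exact eval_actL n d k g c.1 q
    have h2 : ∀ p : MvPolynomial (Ix n d) k, dd (aeval (actL g) p) c.1 v =
        dd p (gact g c).1 (act g v) := by
      intro p
      rw [dd_aeval]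
      congr 1
      · funext q
        exact eval_actL n d k g c.1 q
      · funext q
        exact dd_actL n d k g c.1 v q
    rw [hrep _ _ _ (repAct n d k h g), hrep _ _ _ h, h1, h1, h2, h2]

end

end Run7.h622.MD
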