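import Pool.Agent.Run7.h342.MD.Stm

/-!
Piece ELIM: the degenerate coefficient vectors are cut out by polynomials.
-/

namespace Run7.h622.MD

open MvPolynomial Run7.h342.MD

noncomputable section

variable (n d : ℕ) (k : Type) [Field k]

/-- the exponents of degree `t` -/
abbrev Ex (n t : ℕ) : Type := ↥(Finset.finsuppAntidiag (Finset.univ : Finset (Fin n)) t)

theorem mem_ex {t : ℕ} (m : Fin n →₀ ℕ) :
    m ∈ Finset.finsuppAntidiag (Finset.univ : Finset (Fin n)) t ↔ m.degree = t := by
  rw [Finset.mem_finsuppAntidiag]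
  constructor
  · rintro ⟨h, _⟩
    rw [← h, Finsupp.degree_eq_sum]
  · intro h
    refine ⟨?_, Finset.subset_univ _⟩
    rw [← h, Finsupp.degree_eq_sum]

/-- the value of the component of degree `t` -/
theorem eval_comp (t : ℕ) (x : Fin n → k) (f : MvPolynomial (Fin n) k) :
    ∑ m : Ex n t, (∏ i, x i ^ (m : Fin n →₀ ℕ) i) * coeff (m : Fin n →₀ ℕ) f =
      eval x (homogeneousComponent t f) := by
  classical
  have h1 : homogeneousComponent t f =
      ∑ m : Ex n t, monomial (m : Fin n →₀ ℕ) (coeff (m : Fin n →₀ ℕ) f) := by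
    ext e
    rw [coeff_homogeneousComponent, coeff_sum]
    by_cases he : e.degree = t
    · rw [if_pos he, Finset.sum_eq_single (⟨e, (mem_ex n e).2 he⟩ : Ex n t)]
      · rw [coeff_monomial, if_pos rfl]
      · intro b _ hb
        rw [coeff_monomial, if_neg]
        intro h
        exact hb (Subtype.ext h)
      · intro h
        exact absurd (Finset.mem_univ _) h
    · rw [if_neg he, Finset.sum_eq_zero]
      intro b _
      rw [coeff_monomial, if_neg]
      intro h
      exact he (by rw [← h]; exact (mem_ex n b.1).1 b.2)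
  rw [h1, map_sum]
  refine Finset.sum_congr rfl fun m _ => ?_
  rw [eval_monomial, mul_comm, Finsupp.prod_fintype]
  intro i
  rw [pow_zero]

theorem comp_mul {t e : ℕ} (x : Fin n → k) (A F : MvPolynomial (Fin n) k)
    (hF : F.IsHomogeneous e) (h0 : eval x F = 0) :
    eval x (homogeneousComponent t (A * F)) = 0 := by
  classical
  conv_lhs => rw [← sum_homogeneousComponent A]
  rw [Finset.sum_mul, map_sum, map_sum]
  refine Finset.sum_eq_zero fun i _ => ?_
  have h1 : (homogeneousComponent i A * F).IsHomogeneous (i + e) :=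
    (homogeneousComponent_isHomogeneous i A).mul hF
  rw [homogeneousComponent_of_mem ((mem_homogeneousSubmodule _ _).2 h1)]
  split_ifs
  · rw [map_mul, h0, mul_zero]
  · rw [map_zero]

theorem map_pol {R S : Type} [CommRing R] [CommRing S] (f : R →+* S) (c : Ix n d → R) (i : Fin n) :
    map f (pol c i) = pol (fun q => f (c q)) i := by
  unfold pol
  rw [map_sum]
  refine Finset.sum_congr rfl fun s _ => ?_
  rw [map_mul, map_C, prod_map_X, prod_map_X, map_monomial, map_one]

variable [IsAlgClosed k]

theorem exists_pow (c : Ix n d → k) (hc : Nondeg c) (i : Fin n) :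
    ∃ N : ℕ, (X i : MvPolynomial (Fin n) k) ^ N ∈ Ideal.span (Set.range (pol c)) := by
  have h1 : (X i : MvPolynomial (Fin n) k) ∈
      vanishingIdeal k (zeroLocus k (Ideal.span (Set.range (pol c)))) := by
    rw [mem_vanishingIdeal_iff]
    intro x hx
    have h2 : ev c x = 0 := by
      funext j
      rw [← eval_pol]
      rw [mem_zeroLocus_iff] at hx
      have := hx (pol c j) (Ideal.subset_span ⟨j, rfl⟩)
      rwa [aeval_eq_eval] at this
    rw [hc x h2]
    simp
  rw [vanishingIdeal_zeroLocus_eq_radical] at h1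
  exact h1

theorem t_ELIM (hn : 3 ≤ n) (_hd : 2 ≤ d) : S_ELIM n d k := by
  classical
  intro c hc
  choose N hN using exists_pow n d k c hc
  set M : ℕ := ∑ i, N i + 1 with hM
  set t : ℕ := n * M with ht
  have hmem : ∀ m : Fin n →₀ ℕ, m.degree = t →
      monomial m (1 : k) ∈ Ideal.span (Set.range (pol c)) := by
    intro m hm
    obtain ⟨i, hi⟩ : ∃ i, M ≤ m i := by
      by_contra hcon
      push Not at hcon
      have h1 : m.degree = ∑ i, m i := Finsupp.degree_eq_sum m
      have h2 : ∑ i, m i < ∑ _i : Fin n, M :=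
        Finset.sum_lt_sum_of_nonempty ⟨⟨0, by omega⟩, Finset.mem_univ _⟩ fun i _ => hcon i
      rw [Finset.sum_const, Finset.card_univ, Fintype.card_fin, smul_eq_mul] at h2
      omega
    have hi2 : N i ≤ m i := by
      have := Finset.single_le_sum (f := N) (fun j _ => Nat.zero_le _) (Finset.mem_univ i)
      omega
    have h3 : monomial m (1 : k) = X i ^ N i * monomial (m - Finsupp.single i (N i)) 1 := by
      rw [X_pow_eq_monomial, monomial_mul, one_mul]
      congr 1
      rw [add_tsub_cancel_of_le]
      exact Finsupp.single_le_iff.2 hi2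
    rw [h3]
    exact Ideal.mul_mem_right _ _ (hN i)
  have hA : ∀ m : Ex n t, ∃ A : Fin n → MvPolynomial (Fin n) k,
      ∑ j, A j * pol c j = monomial (m : Fin n →₀ ℕ) 1 := fun m =>
    Ideal.mem_span_range_iff_exists_fun.1 (hmem _ ((mem_ex n _).1 m.2))
  choose A hA using hA
  set L : Matrix (Ex n t) (Ex n t) (MvPolynomial (Ix n d) k) := Matrix.of fun m m₂ =>
    coeff (m : Fin n →₀ ℕ) (∑ j, map C (A m₂ j) *
      pol (X : Ix n d → MvPolynomial (Ix n d) k) j) with hL
  have hev : ∀ c' : Ix n d → k, ∀ m m₂, eval c' (L m m₂) =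
      coeff (m : Fin n →₀ ℕ) (∑ j, A m₂ j * pol c' j) := by
    intro c' m m₂
    rw [hL, Matrix.of_apply, ← coeff_map, map_sum]
    congr 2
    funext j
    rw [map_mul, map_map, map_pol]
    congr 1
    · have h1 : (eval c').comp (C : k →+* MvPolynomial (Ix n d) k) = RingHom.id k := by
        ext a
        simp
      rw [h1, map_id]
    · congr 1
      funext q
      exact eval_X q
  refine ⟨L.det, ?_, ?_⟩
  · rw [RingHom.map_det]
    have h1 : (eval c).mapMatrix L = 1 := by
      ext m m₂
      rw [RingHom.mapMatrix_apply, Matrix.map_apply, hev, hA, coeff_monomial, Matrix.one_apply]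
      by_cases h : m = m₂
      · rw [if_pos h, if_pos (by rw [h])]
      · rw [if_neg h, if_neg]
        intro h2
        exact h (Subtype.ext h2.symm)
    rw [h1, Matrix.det_one]
    exact one_ne_zero
  · intro c' hc'
    unfold Nondeg at hc'
    push Not at hc'
    obtain ⟨x, hx, hx0⟩ := hc'
    rw [RingHom.map_det]
    apply Matrix.exists_vecMul_eq_zero_iff.1
    refine ⟨fun m => ∏ i, x i ^ (m : Fin n →₀ ℕ) i, ?_, ?_⟩
    · obtain ⟨i, hi⟩ := Function.ne_iff.1 hx0
      intro h
      have h1 : Finsupp.single i t ∈ Finset.finsuppAntidiag (Finset.univ : Finset (Fin n)) t := by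
        rw [mem_ex, Finsupp.degree_single]
      have h2 := congrFun h ⟨_, h1⟩
      simp only [Pi.zero_apply] at h2
      rw [Finset.prod_eq_zero_iff] at h2
      obtain ⟨j, _, hj⟩ := h2
      by_cases hji : i = j
      · subst hji
        exact hi (eq_zero_of_pow_eq_zero hj)
      · rw [Finsupp.single_eq_of_ne (fun h => hji h.symm), pow_zero] at hj
        exact one_ne_zero hj
    · funext m₂
      rw [Matrix.vecMul, dotProduct]
      have h1 : ∀ m, (fun m : Ex n t => ∏ i, x i ^ (m : Fin n →₀ ℕ) i) m *
          ((eval c').mapMatrix L) m m₂ = (∏ i, x i ^ (m : Fin n →₀ ℕ) i) *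
            coeff (m : Fin n →₀ ℕ) (∑ j, A m₂ j * pol c' j) := by
        intro m
        rw [RingHom.mapMatrix_apply, Matrix.map_apply, hev]
      rw [Finset.sum_congr rfl fun m _ => h1 m, eval_comp, map_sum, map_sum]
      refine Finset.sum_eq_zero fun j _ => ?_
      refine comp_mul n k x _ _ (isHomogeneous_pol c' j) ?_
      rw [eval_pol, hx]
      rfl

end

end Run7.h622.MD
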